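import Pool.Agent.Helper89.OS.St1

/-!
# Project OS, module NSD: no self-dual simple object
-/

set_option autoImplicit false

namespace Pool.Agent.Helper48.OS

open Matrix ComplexConjugate Pool.Agent.Helper94.YF Pool.Agent.Helper94.YG Pool.Agent.Helper89.OS

section
variable {I : Type} [Fintype I] [DecidableEq I]

theorem N_formula (Z : CentreRep I) (hst : ∀ i, Z.st (Z.st i) = i) (a b V : I) :
    (Z.N a b V : ℂ) =
      ∑ t, Z.rho Sm a t * (conj (Z.rho Sm V t) / Z.rho Sm Z.o t) * Z.rho Sm b t := by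
  have h := congrFun (congrFun (NN_eq Z V) a) (Z.st b)
  simp only [Matrix.map_apply, NN, hst] at h
  rw [h, Matrix.mul_apply]
  refine Finset.sum_congr rfl fun t _ => ?_
  rw [Matrix.mul_diagonal, Matrix.conjTranspose_apply, Z.s_dual,
    show star (conj (Z.rho Sm b t)) = Z.rho Sm b t from star_star _]

theorem N_left (Z : CentreRep I) (hst : ∀ i, Z.st (Z.st i) = i) (b V : I) :
    (Z.N Z.o b V : ℂ) = if b = V then 1 else 0 := by
  rw [N_formula Z hst, ← unit_row Z b V]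
  refine Finset.sum_congr rfl fun t _ => ?_
  have h0 := so_ne Z t
  field_simp

theorem N_right (Z : CentreRep I) (hst : ∀ i, Z.st (Z.st i) = i) (a V : I) :
    (Z.N a Z.o V : ℂ) = if a = V then 1 else 0 := by
  rw [N_formula Z hst, ← unit_row Z a V]
  refine Finset.sum_congr rfl fun t _ => ?_
  have h0 := so_ne Z t
  field_simp

theorem sum_col (o : I) (f : I → ℂ) (hf : ∀ a, f a = if a = o then 1 else 0)
    (X : Matrix I I ℂ) : ∑ a, ∑ b, f a * conj (f b) * X a b = X o o := by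
  have h1 : ∀ a b, f a * conj (f b) * X a b = if a = o then (if b = o then X a b else 0) else 0 := by
    intro a b
    rw [hf a, hf b]
    split_ifs <;> simp
  simp only [h1]
  rw [Finset.sum_eq_single o]
  · simp
  · intro a _ ha
    simp [ha]
  · intro h
    exact absurd (Finset.mem_univ o) h

end

theorem hNSD : StNSD := by
  intro hLDV hXD hIDP hFUS hDUA hINT hRAT I _ _ Z hn V hV
  obtain ⟨hst, hsto, -, -, -, -⟩ := hDUA I Z.toCentreRep
  obtain ⟨hU, -, -, -, -, htwo, -, -, -, -, -⟩ := hFUS hDUA I Z.toCentreRep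
  have hL : ¬ 2 ∣ Z.L := by
    intro h
    have h2 := hLDV hXD hIDP hFUS hDUA hINT hRAT I Z 2 Nat.prime_two h
    rcases hn with ⟨k, hk⟩
    omega
  have hco : Nat.Coprime 2 Z.L := (Nat.Prime.coprime_iff_not_dvd Nat.prime_two).2 hL
  obtain ⟨c, hc⟩ : ∃ c : (ZMod Z.L)ˣ, (c : ZMod Z.L) = 2 :=
    ⟨ZMod.unitOfCoprime 2 hco, by rw [ZMod.coe_unitOfCoprime]; norm_num⟩
  obtain ⟨M, lam, hlam, hsum⟩ := Z.indicatorV Z.o Z.o V 2 (by norm_num)
  have hlam1 : ∀ r, lam r ^ 2 = 1 := by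
    intro r
    rw [hlam r, Z.th_o]
    simp
  -- l = 2
  have hcol1 : ∀ a, Z.rho (U 1) a Z.o = if a = Z.o then 1 else 0 := by
    intro a
    rw [Z.rho_T, Matrix.diagonal_apply]
    split_ifs with h
    · rw [h, Z.th_o]
    · rfl
  have h2 := hsum 2 (U 1)
    (by show (1 : ZMod Z.L) = _; norm_num) (by show (1 : ZMod Z.L) = _; norm_num)
  rw [show Nat.gcd 2 2 = 2 from rfl, sum_col Z.o (fun a => Z.rho (U 1) a Z.o) hcol1, pow_two,
    Matrix.mul_apply] at h2
  have h3 : ∑ x, NMat Z.N Z.st V Z.o x * NMat Z.N Z.st V x Z.o = 1 := by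
    have h4 : ∀ x, NMat Z.N Z.st V Z.o x * NMat Z.N Z.st V x Z.o = if x = V then 1 else 0 := by
      intro x
      have e1 : NMat Z.N Z.st V Z.o x = if Z.st x = V then 1 else 0 :=
        N_left Z.toCentreRep hst (Z.st x) V
      have e2 : NMat Z.N Z.st V x Z.o = if x = V then 1 else 0 := by
        have e3 := N_right Z.toCentreRep hst x V
        unfold NMat
        rw [hsto]
        exact e3
      rw [e1, e2]
      by_cases hx : x = V
      · rw [hx, hV]
        simp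
      · simp [hx]
    rw [Finset.sum_congr rfl fun x _ => h4 x]
    simp
  rw [h3] at h2
  have hM : M = 1 := by
    have h5 : (M : ℂ) = 1 := by
      rw [← h2, Finset.sum_congr rfl fun r _ => hlam1 r]
      simp
    exact_mod_cast h5
  -- l = 1
  have hcol2 : ∀ a, Z.rho (Dg c * U ((c⁻¹ : (ZMod Z.L)ˣ) : ZMod Z.L)) a Z.o
      = if a = Z.o then 1 else 0 := by
    intro a
    rw [map_mul, hU, Matrix.mul_diagonal, htwo, mul_one, Z.borel]
  have h1 := hsum 1 (Dg c * U ((c⁻¹ : (ZMod Z.L)ˣ) : ZMod Z.L))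
    (by
      show (((Dg c * U ((c⁻¹ : (ZMod Z.L)ˣ) : ZMod Z.L)) : SL Z.L) : Matrix (Fin 2) (Fin 2) (ZMod Z.L)) 0 0 = _
      rw [Matrix.SpecialLinearGroup.coe_mul, Matrix.mul_apply]
      simp [Dg, U, hc])
    (by
      show (((Dg c * U ((c⁻¹ : (ZMod Z.L)ˣ) : ZMod Z.L)) : SL Z.L) : Matrix (Fin 2) (Fin 2) (ZMod Z.L)) 0 1 = _
      rw [Matrix.SpecialLinearGroup.coe_mul, Matrix.mul_apply]
      simp [Dg, U])
  rw [show Nat.gcd 1 2 = 1 from rfl, sum_col Z.o
    (fun a => Z.rho (Dg c * U ((c⁻¹ : (ZMod Z.L)ˣ) : ZMod Z.L)) a Z.o) hcol2, pow_one] at h1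
  have e4 : NMat Z.N Z.st V Z.o Z.o = if Z.o = V then 1 else 0 := by
    have e5 := N_left Z.toCentreRep hst Z.o V
    unfold NMat
    rw [hsto]
    exact e5
  rw [e4] at h1
  subst hM
  by_contra hne
  have hne' : ¬ Z.o = V := fun h => hne h.symm
  rw [if_neg hne', Fin.sum_univ_one, pow_one] at h1
  have h6 := hlam1 0
  rw [h1] at h6
  norm_num at h6

end Pool.Agent.Helper48.OS
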